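import Mathlib
import Pool.Agent.SM.Stm
import Pool.Agent.SM.Fin

/-!
# Diffeomorphic approximation of piecewise affine homeomorphisms in dimension three

For every open subset `Ω` of three dimensional Euclidean space and every exponent
`1 ≤ p < ∞`, every piecewise affine homeomorphism of `Ω` onto its image which lies in
`W^{1,p}(Ω)` is a limit in `W^{1,p}(Ω)` of diffeomorphisms of `Ω` onto open sets.

Outline of the proof.  Call a secant of `f` between two points `x`, `x'` a linear map `M` with
`f x - f x' = M (x - x')`.  If near every point all secants lie in one convex compact set of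
linear maps that are bounded below, then a mollification with variable radius is a local
diffeomorphism, with the same bounds.  A piecewise affine homeomorphism has this property at
all points off its edges and vertices.  Near the edges the map is changed by an explicit isotopy
of homogeneous planar maps (interpolation of logarithms), run through slowly in the variable
`log (distance)`, so that the secants remain good and the derivative remains bounded.  Near the
vertices the resulting map is homogeneous; after mollification its link is a diffeomorphism of
the two-sphere, which is joined to a linear map within homogeneous maps with good secants by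
embedding theorems of Tutte type for the triangular lattice.  Since all changes happen in small
neighbourhoods of the two-skeleton and all derivatives stay bounded by a locally finite
function of the original map, the result is close to the given map in `W^{1,p}`.
-/

open Set MeasureTheory SM.Stm
open scoped ContDiff ENNReal

namespace Pool.Agent.Results.MP_e5f854_an.DimensionThree

/-- Every piecewise affine homeomorphism `f` of an open set `Ω` of three dimensional Euclidean
space with `f` in `W^{1,p}(Ω)`, `1 ≤ p < ∞`, is approximated in `W^{1,p}(Ω)` by
diffeomorphisms of `Ω` onto open sets. -/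
theorem result (Ω : Set (Rn 3)) (hΩ : IsOpen Ω) (p : ℝ≥0∞) (hp : 1 ≤ p) (hp' : p ≠ ⊤)
    (f : Rn 3 → Rn 3) (hf : PAHomeo Ω f) (hW : Sobolev Ω p f) : Approximable Ω p f := by
  obtain ⟨F, hF⟩ := hW
  refine ⟨F, hF, fun ε hε => ?_⟩
  obtain ⟨⟨h1, h2, h3⟩, ι, hι, s, ⟨s1, s2, s3, s4, s5⟩, hA⟩ := hf
  have hf' : SM.IsPAHomeo Ω f := ⟨h1, h2, h3, ι, hι, s, s1, s2, s3, s4, s5, hA⟩
  have hF' : SM.MemW Ω p f F := ⟨hF.memf, hF.memF, hF.weak⟩
  obtain ⟨g, G, hg, hG, hlt⟩ := SM.final hΩ hp hp' hf' hF' hε
  exact ⟨g, G, ⟨hg.smooth, hg.inj, hg.open_image, hg.smooth_inv⟩, ⟨hG.memf, hG.memF, hG.weak⟩,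
    hlt⟩

end Pool.Agent.Results.MP_e5f854_an.DimensionThree
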