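import Pool.Agent.EXO.FinB
import Pool.Agent.EXO.LIdx
import Pool.Agent.SM.Stm

/-!
# A piecewise affine homeomorphism which is not a Sobolev limit of diffeomorphisms

There are a bounded open subset `Ω` of the Euclidean space of dimension fourteen and a piecewise
affine homeomorphism `f` of `Ω` onto its image, Lipschitz on `Ω`, which is not a limit of
diffeomorphisms of `Ω` in `W^{1,p}(Ω)` for any `p > 14`.

Outline of the proof.  Milnor's plumbing pairing, applied to two maps of small support from the
Euclidean space of dimension three to the unit quaternions, gives a diffeomorphism `φ` with
compact support of the Euclidean space of dimension six which represents an exotic sphere of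
dimension seven, while its product with the identity in six further dimensions has an explicit
isotopy to the identity.  The set `Ω` is a thickening of the seven-sphere times a ball of
dimension seven, and `f` is a piecewise affine map close to a homeomorphism `f₀` of `Ω` which is
the identity outside a small box and runs there through the isotopy and through the cone over
`φ`.  For `p > 14` a diffeomorphism close to `f` in `W^{1,p}` is uniformly close to `f₀` on compact
sets.  Let `N` be a product of three closed surfaces of genus two, embedded as a hypersurface in
the Euclidean space of dimension seven.  A diffeomorphism close to `f₀`, restricted to the
seven-sphere times a collar of `N`, glues the Euclidean space of dimension eight times `N` to the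
plumbing of two bundles of discs of dimension four over the four-sphere times `N`; the result is
a closed oriented smooth manifold `V` of dimension fourteen with a map to `N`, for which the
number formed with the square of the first Pontryagin form and the volume form of `N` is the one
of the plumbing.  Take on `N` a flat graded bundle, unitary of indefinite type, with Chern form
`8` times a form of integral `1` or `-1`.  By Hodge theory and elementary arguments the index of
the signature operator of `V` with coefficients in its pullback is zero, and the index theorem
(proved by the heat equation, with the local index theorem by rescaling) then determines the
number formed with the second Pontryagin form.  The same theorem for the coefficients tensored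
with the tangent bundle of `V` gives the index `2^15 / 7` up to sign, which is not an integer.
-/

open Set MeasureTheory SM.Stm
open scoped ContDiff ENNReal

namespace Pool.Agent.Results.MP_e5f854_an.NotApproximable

/-- There are a bounded open set `Ω` in the Euclidean space of dimension fourteen and a piecewise
affine homeomorphism `f` of `Ω` onto its image, Lipschitz on `Ω` and in `W^{1,p}(Ω)` for every
`p`, such that for every `p > 14` the map `f` cannot be approximated in `W^{1,p}(Ω)` by
diffeomorphisms of `Ω` onto open sets. -/
theorem result : ∃ (Ω : Set (Rn 14)) (f : Rn 14 → Rn 14), IsOpen Ω ∧ Bornology.IsBounded Ω ∧
    PAHomeo Ω f ∧ (∃ K : NNReal, LipschitzOnWith K f Ω) ∧ (∀ p : ℝ≥0∞, Sobolev Ω p f) ∧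
    ∀ p : ℝ≥0∞, 14 < p → ¬ Approximable Ω p f :=
  Pool.Agent.EXO.fin_main Pool.Agent.EXO.IF_idx

end Pool.Agent.Results.MP_e5f854_an.NotApproximable
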